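import Pool.Agent.N496.CV.All
import Pool.Agent.N496.CV.Euler
import Pool.Agent.N496.CV.L2Pf

/-!
# The Singer conjecture for the codimension one subgroups of the groups of closed aspherical manifolds

Let the flag complex of the graph `H` be a homology manifold with the homology of the sphere of dimension `n - 1`, both
over the reals and over the field with two elements (for example a flag triangulation of the sphere of dimension
`n - 1`), `n = 2 d` or `n = 2 d + 1`, `1 ≤ d`. Let `B` be a set of vertices such that the full subcomplex spanned by `B`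
is properly coloured by `d + 1` colours (for example `B` empty). We show that there is an iterated edge subdivision `S`
of `H` (`Sub H S`), in which the full subcomplex spanned by `B` is not changed and which is a homology sphere again,
with the following property. The right-angled Coxeter group `W S` acts on its Davis complex `Σ`, which is
contractible, and is an `n`-manifold if the flag complex of `S` is a (PL) triangulation of the `(n-1)`-sphere. The
kernel `Γ` of `W S → (ℤ/2)^m` is torsion free of finite index and `M = Σ / Γ` is a closed aspherical `n`-manifold.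

Let `X` be a closed aspherical manifold of dimension `q ≤ n` whose fundamental group `K` is isomorphic to a
subgroup of `Γ` of finite or infinite index: for `q = n` a finite cover of `M`, for `q < n` for example a
`π_1`-injective closed aspherical submanifold of a (possibly infinite) cover of `M`. More generally let `K ≤ Γ` be any
Poincare duality group of dimension `q` of type FL (`PD K q`), orientable or not. Then the `L²`-Betti numbers of `K`
(Lueck's dimension of `Tor_k^{ℤ[K]}(N(K), ℤ)`, `HasL2Betti`) vanish in all degrees `k` with `|2 k - q| > n - q`.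
For `q = n`, and for `q = n - 1` if `n` is odd, this is the statement of Singer's conjecture: they vanish in all degrees
`k ≠ q / 2`.
-/

set_option autoImplicit false

namespace Pool.Agent.Results.MP_f80465_gt.CodimensionOneManifolds

open Pool.Agent.W907.SG Pool.Agent.W461.SGN Pool.Agent.N496.LT Pool.Agent.N496.CV
open Pool.Agent.TH652.Above (HSph)
open Pool.Agent.N504.RS.Two (HSph2)

/-- Let the flag complex of `H` be a homology manifold with the homology of the `(n-1)`-sphere over the reals and over
the field with two elements, `n = 2 d` or `n = 2 d + 1`, and let the full subcomplex spanned by the set `B` of vertices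
be properly coloured by `d + 1` colours. Then there is an iterated edge subdivision `S` of `H`, again a homology sphere
in both senses, which induces on `B` the same graph as `H`, such that the kernel `Γ` of `W S → (ℤ/2)^m` is torsion free
of finite index in the right-angled Coxeter group `W S` and for every subgroup `K` of `Γ`, of finite or infinite
index, which is a Poincare duality group of dimension `q` (of type FL): (1) the `L²`-Betti number of `K` in the degree
`k` is zero if `n < 2 k` or `2 k + n < 2 q`; (2) if `q = 2 d` or `q = 2 d + 1` then all the `L²`-Betti numbers of `K` in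
degrees `k ≠ q / 2` are zero; (3) if `q = 2 d` then `(-1)^d χ(K) ≥ 0` for the Euler characteristic computed by any
resolution `C` of `ℤ` by finitely generated free modules of finite length. -/
theorem result : ∀ (d n N : ℕ) (H : SimpleGraph (Fin N)), 1 ≤ d → (n = 2 * d ∨ n = 2 * d + 1) →
    HSph n H → HSph2 n H →
    ∀ (B : Set (Fin N)) (c : Fin N → Fin (d + 1)), (∀ u ∈ B, ∀ v ∈ B, H.Adj u v → c u ≠ c v) →
    ∃ (m : ℕ) (h : N ≤ m) (S : SimpleGraph (Fin m)), Sub H S ∧ HSph n S ∧ HSph2 n S ∧
      (∀ u ∈ B, ∀ v ∈ B, S.Adj (Fin.castLE h u) (Fin.castLE h v) ↔ H.Adj u v) ∧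
      (th S).ker.FiniteIndex ∧ (∀ g ∈ (th S).ker, ∀ j : ℕ, 0 < j → g ^ j = 1 → g = 1) ∧
      ∀ K : Subgroup (W S), K ≤ (th S).ker → ∀ q : ℕ, Nonempty (PD K q) →
        (∀ k : ℕ, n < 2 * k ∨ 2 * k + n < 2 * q → HasL2Betti K k 0) ∧
        ((q = 2 * d ∨ q = 2 * d + 1) → ∀ k : ℕ, 2 * k ≠ q → HasL2Betti K k 0) ∧
        (q = 2 * d → ∀ (C : V7N.FreeRes K) (l : ℕ), (∀ i, l < i → C.r i = 0) →
          0 ≤ (-1 : ℤ) ^ d * ∑ i ∈ Finset.range (l + 1), (-1 : ℤ) ^ i * (C.r i : ℤ)) := by
  intro d n N H hd hn hS hS2 B c hc
  obtain ⟨m, h, S, h1, h2, h3, h4, h5⟩ :=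
    Pool.Agent.N496.CV.rel_all Pool.Agent.N496.CV.main H hd hn hS hS2 B c hc
  refine ⟨m, h, S, h1, h2, h3, h4, inferInstance, fun g hg j hj hgj => Pool.Agent.N496.CV.tf' (Fin m) S g hg j hj hgj,
    fun K hK q hP => ?_⟩
  obtain ⟨P⟩ := hP
  have key : ∀ k : ℕ, n < 2 * k ∨ 2 * k + n < 2 * q → VN831.l2Betti K k = 0 := by
    rintro k (hk | hk)
    · exact h5 K hK k hk
    · exact pd_zero P k (q - k) (by omega) (h5 K hK (q - k) (by omega))
  have key2 : (q = 2 * d ∨ q = 2 * d + 1) → ∀ k : ℕ, 2 * k ≠ q → VN831.l2Betti K k = 0 := by
    intro hq k hk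
    by_cases h6 : n < 2 * k
    · exact key k (Or.inl h6)
    · by_cases h7 : 2 * k + n < 2 * q
      · exact key k (Or.inr h7)
      · by_cases h8 : k ≤ q
        · by_cases h9 : n < 2 * (q - k)
          · exact pd_zero P k (q - k) (by omega) (h5 K hK (q - k) h9)
          · exfalso
            omega
        · exfalso
          omega
  refine ⟨fun k hk => ?_, fun hq k hk => ?_, fun hq C l hl => ?_⟩
  · have h6 := hasL2Betti K k
    rw [key k hk] at h6
    exact h6
  · have h6 := hasL2Betti K k
    rw [key2 hq k hk] at h6
    exact h6
  · exact euler_sign C l d hl fun k hk => key2 (Or.inl hq) k (by omega)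

end Pool.Agent.Results.MP_f80465_gt.CodimensionOneManifolds
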