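import Pool.Agent.N13.PL.All

/-!
# The Singer conjecture for the Davis manifolds of dimensions five and six

Let the flag complex `L` of the finite graph `G` be a homology manifold with the homology of the `(n-1)`-sphere
(`HSph n G`), `n = 5` or `n = 6`. The Davis complex of the right-angled Coxeter group `W G` is a contractible homology
`n`-manifold, a manifold if `L` is a combinatorial sphere, and its quotients by the torsion-free subgroups of finite
index are closed aspherical `n`-manifolds.

For `n = 5` the links of the vertices `v` are homology 3-spheres and the Euler characteristics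
`χ(W_(lk v)) = ∑ (-1/2)^|S|` (`chiL G {v}`) are not negative. Let `U` be the set of the vertices for which this number is
positive. We show that Singer's conjecture for the five-dimensional manifolds of `L` is equivalent to
`b_3^(2)(W_U) = 0`, for each `L` individually, and that it implies that `b_i^(2)(W_A) = 0` for all sets `A` of vertices and
all `i ≥ 3`. It holds if the sum of the numbers `χ(W_(lk v))` is zero, and then even `b_i^(2)(W_A) = 0` for all `A` and
all `i ≥ 2`.

For `n = 6` we show that Singer's conjecture follows from `b_3^(2)(W_(U_v)) = 0` for all vertices `v`, where `U_v` is the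
set of the vertices `w` of the link of `v` with `χ(W_(lk {v,w})) > 0`, and that this condition is equivalent to the
vanishing above the middle for all full subcomplexes of all links.
-/

set_option autoImplicit false

namespace Pool.Agent.Results.MP_f80465_gt.DimensionsFiveAndSix

open Pool.Agent.W907.SG Pool.Agent.W907.SM Pool.Agent.TH652.Above Pool.Agent.Y132.SI Pool.Agent.N13.EU
open Pool.Agent.N13.PL

/-- (1) Let `L` be a flag homology sphere of dimension four and `U` the set of the vertices whose links have
nonzero Euler characteristic. The following are equivalent: the `ℓ²`-Betti numbers of `W` vanish in all degrees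
(Singer's conjecture in dimension five); `b_3^(2)(W_U) = 0`; `b_i^(2)(W_A) = 0` for all simplices `T`, all sets `A` of
vertices of the link of `T` and all `i > (5 - |T|) / 2`. In this case for each `ε > 0` there is a finite set `E` of
nontrivial elements of `W` such that for all subgroups `H` of finite index containing no conjugate of an element of
`E` all real Betti numbers of `H` are at most `ε [W : H]`.
(2) These statements are true if the sum of the Euler characteristics of the links of the vertices is zero, and then
`b_i^(2)(W_A) = 0` for all sets `A` of vertices and all `i ≥ 2`.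
(3) Let `L` be a flag homology sphere of dimension five. Then `b_3^(2)(W_(U_v)) = 0` for all vertices `v` and the set
`U_v` of the vertices `w` of the link of `v` with `χ(W_(lk {w,v})) ≠ 0` if and only if `b_i^(2)(W_A) = 0` for all simplices
`T`, all sets `A` of vertices of the link of `T` and all `i > (6 - |T|) / 2`. In this case `b_i^(2)(W) = 0` for all
`i ≠ 3` (Singer's conjecture in dimension six), and `χ(W) ≤ 0`. -/
theorem result :
    (∀ (V : Type) [Fintype V] [LinearOrder V] (G : SimpleGraph V), HSph 5 G →
      ∀ U : Finset V, (∀ v, v ∈ U ↔ chiL G {v} ≠ 0) →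
        ((∀ i : ℕ, L2Van G i) ↔ L2Van (G.induce (U : Set V)) 3) ∧
        ((∀ i : ℕ, L2Van G i) ↔ ∀ T : Finset V, G.IsClique (T : Set V) → ∀ A : Finset V, (A : Set V) ⊆ lk G T →
          ∀ i : ℕ, 5 < 2 * i + T.card → L2Van (G.induce (A : Set V)) i) ∧
        (L2Van (G.induce (U : Set V)) 3 → ∀ ε : ℝ, 0 < ε → ∃ E : Finset (W G), (1 : W G) ∉ E ∧
          ∀ H : Subgroup (W G), H.FiniteIndex → (∀ g ∈ E, ∀ x : W G, x * g * x⁻¹ ∉ H) →
            ∀ i : ℕ, (Module.finrank ℝ (HInv G H i) : ℝ) ≤ ε * H.index)) ∧
    (∀ (V : Type) [Fintype V] [LinearOrder V] (G : SimpleGraph V), HSph 5 G → ∑ v : V, chiL G {v} = 0 →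
      (∀ i : ℕ, L2Van G i) ∧ ∀ (A : Finset V) (i : ℕ), 2 ≤ i → L2Van (G.induce (A : Set V)) i) ∧
    (∀ (V : Type) [Fintype V] [LinearOrder V] (G : SimpleGraph V), HSph 6 G →
      ((∀ (v : V) (U : Finset V), (∀ w, w ∈ U ↔ G.Adj v w ∧ chiL G {w, v} ≠ 0) → L2Van (G.induce (U : Set V)) 3) ↔
        ∀ T : Finset V, G.IsClique (T : Set V) → ∀ A : Finset V, (A : Set V) ⊆ lk G T →
          ∀ i : ℕ, 6 < 2 * i + T.card → L2Van (G.induce (A : Set V)) i) ∧
      ((∀ (v : V) (U : Finset V), (∀ w, w ∈ U ↔ G.Adj v w ∧ chiL G {w, v} ≠ 0) → L2Van (G.induce (U : Set V)) 3) →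
        (∀ i : ℕ, i ≠ 3 → L2Van G i) ∧ chiW G ≤ 0)) := by
  refine ⟨?_, fun V _ _ G hS h => five_zero three hS h, ?_⟩
  · intro V _ _ G hS U hU
    obtain ⟨h1, h2⟩ := five three hS
    refine ⟨h1.trans (h2 U hU), h1, fun h3 => ?_⟩
    have h : ∀ i : ℕ, L2Van G i := (h1.trans (h2 U hU)).2 h3
    exact (chi_iff G 5 fun i _ => h i).1 ((l2eul V G 0 fun i _ => h i).1 h)
  · intro V _ _ G hS
    have h1 := six three hS
    refine ⟨h1.symm, fun h => ?_⟩
    have h2 : Hered 6 G := h1.2 h
    have h3 : ∀ i : ℕ, i ≠ 3 → L2Van G i := fun i hi => singer_hered hS h2 i (by omega)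
    refine ⟨h3, ?_⟩
    have h4 := chi_sign (m := 3) G h3
    norm_num at h4
    linarith

end Pool.Agent.Results.MP_f80465_gt.DimensionsFiveAndSix
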