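import Pool.Agent.L7h76.UR.Class

/-!
# The Singer conjecture for the Davis manifolds of flag spheres: Euler characteristics of links

Let `L` be the flag complex of the finite graph `G`, a homology manifold with the homology of the `(n-1)`-sphere
(`HSph n G`). The Davis complex of the right-angled Coxeter group `W G` is a contractible real homology `n`-manifold
(a topological manifold if `L` is a combinatorial sphere), and its quotients by the torsion-free subgroups of finite
index of `W G` are closed aspherical `n`-manifolds.

We prove the statement of Singer's conjecture for them if `G` is in the class `KQ false (n / 2 + 1)`. The classes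
`KQ true n` (vanishing above `n / 2` for the graph and all its full subgraphs) and `KQ false b` (vanishing in the
degrees `≥ b`) are defined together. They contain the earlier classes `CR n`, `ER n` and `MQ b`, hence the classes of
the results `ReflectionManifolds`, `ColouredSpheres` and `MorseSpheres`, they are closed under the operations of all of
them, and the following new rule connects the two classes.

* Euler rule. The homology sphere `G` of dimension `n - 1` is in the class `KQ true n` if for all its simplices `T`
  with `n - |T| = 2 m + 1 ≥ 5` the set `U` of the vertices `v` of the link of `T` with `χ(W_(lk (T ∪ v))) ≠ 0` spans a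
  member of the class `KQ false (m + 1)`. The other vertices do not matter. (There is no condition for `n ≤ 4`.) This
  is the case, for example, if `U` has at most `3 m + 2` elements, contains only simplices with at most `m` vertices, can
  be numbered such that each element has at most `3 m - 1` neighbours in `U` with smaller numbers, or spans a suspension,
  or has a Morse function as in the Morse rules.
-/

set_option autoImplicit false

namespace Pool.Agent.Results.MP_f80465_gt.EulerMorseClass

open Pool.Agent.W907.SG Pool.Agent.Y132.SI Pool.Agent.L7h76.UR
open Pool.Agent.TH652.Above (HSph chi_sign)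

/-- Let the flag complex of the finite graph `G` be a real homology manifold with the real homology of the
`(n-1)`-sphere, and let `G` be in the class `KQ false (n / 2 + 1)`. (1) The reduced `ℓ²`-homology of the Davis complex
of the right-angled Coxeter group `W G` vanishes in all degrees `i ≠ n / 2`. (2) If `n = 2 m` then
`(-1)^m χ(W G) ≥ 0`, where `χ(W G) = ∑_T (-1/2)^|T|` over the cliques `T`. (3) For each `ε > 0` there is a finite set
`E` of nontrivial elements of `W G` such that for every subgroup `H` of finite index of `W G` which contains no
conjugate of an element of `E`, and for all `i`, the `i`-th real Betti number of `H` differs by at most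
`ε [W G : H]` from `0`, if `2 i ≠ n`, or from `(-1)^i χ(W G) [W G : H]`, if `2 i = n`. (4) If `G` is in the class
`KQ true n` then moreover for all sets `A` of vertices the `ℓ²`-homology of the group of the full subgraph on `A`
vanishes in the degrees `i > n / 2`. -/
theorem result : ∀ (n : ℕ) (V : Type) [Fintype V] [LinearOrder V] (G : SimpleGraph V), HSph n G →
    (KQ false (n / 2 + 1) G →
      (∀ i : ℕ, 2 * i ≠ n → L2Van G i) ∧
      (∀ m : ℕ, n = 2 * m → 0 ≤ (-1 : ℚ) ^ m * chiW G) ∧
      ∀ ε : ℝ, 0 < ε → ∃ E : Finset (W G), (1 : W G) ∉ E ∧
        ∀ H : Subgroup (W G), H.FiniteIndex → (∀ g ∈ E, ∀ x : W G, x * g * x⁻¹ ∉ H) → ∀ i : ℕ,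
            |(Module.finrank ℝ (HInv G H i) : ℝ) -
              (if 2 * i = n then (-1) ^ i * (chiW G : ℝ) else 0) * H.index| ≤ ε * H.index) ∧
    (KQ true n G → KQ false (n / 2 + 1) G ∧
      ∀ (A : Finset V) (i : ℕ), n < 2 * i → L2Van (G.induce (A : Set V)) i) := by
  intro n V _ _ G hS
  refine ⟨fun hA => ?_, fun hA => ⟨KQ.her G hA, fun A i hi => full_KQ hA A i hi⟩⟩
  have h1 : ∀ i : ℕ, 2 * i ≠ n → L2Van G i := fun i hi => singer_KQ hS hA i hi
  refine ⟨h1, ?_, fun ε hε => growth_free G n h1 ε hε⟩
  rintro m rfl
  exact chi_sign G fun i hi => h1 i (by omega)

end Pool.Agent.Results.MP_f80465_gt.EulerMorseClass
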